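import Pool.Agent.B595.Main
import Pool.Agent.B595.CM

/-!
Exact value of the extremal problem for the symbol `(1-|ξ|)^α` on `[-1,1]`, `0 < α ≤ 2/5`.
-/

open MeasureTheory

namespace Pool.Agent.Results.MP_1b8a6f_an.ExactNorm

/-- The Bessel function `J_0`, by its power series. -/
noncomputable def besselJ0 (x : ℝ) : ℝ :=
  ∑' j : ℕ, (-1)^j / ((j.factorial : ℝ))^2 * (x/2)^(2*j)

/-- The set of the total variation norms `‖μ‖` of all complex Borel measures `μ` of bounded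
variation on the line whose Fourier transform `∫ exp(-ixξ) dμ(x)` equals `(1-|ξ|)^α` for all
`ξ ∈ [-1,1]`. -/
def norms (α : ℝ) : Set ℝ :=
  {V | ∃ μ : ComplexMeasure ℝ, μ.variation Set.univ ≠ ⊤ ∧
    (∀ ξ ∈ Set.Icc (-1:ℝ) 1,
      ∫ᵛ x, Complex.exp (-(Complex.I * (x:ℂ) * (ξ:ℂ))) ∂[ContinuousLinearMap.mul ℝ ℂ; μ]
        = (((1 - |ξ|) ^ α : ℝ) : ℂ)) ∧
    V = (μ.variation Set.univ).toReal}

/-- `I(α)`, the infimum of the norms. -/
noncomputable def I (α : ℝ) : ℝ := sInf (norms α)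

/-- `K(α,β) = ∫_0^1 (1-ξ)^α J_0(β √(1-ξ²)) dξ`. -/
noncomputable def K (α β : ℝ) : ℝ :=
  ∫ ξ in (0:ℝ)..1, (1 - ξ) ^ α * besselJ0 (β * √(1 - ξ^2))

/-- `Φ(α,b) = ∫_0^b β K(α,β) dβ`. -/
noncomputable def Phi (α b : ℝ) : ℝ := ∫ β in (0:ℝ)..b, β * K α β

lemma Phi_eq (α b : ℝ) : Phi α b = B595.Phi α b := rfl
lemma K_eq (α b : ℝ) : K α b = B595.K α b := rfl

lemma exp_bdd (x ξ : ℝ) : ‖Complex.exp (-(Complex.I * (x:ℂ) * (ξ:ℂ)))‖ ≤ 1 := by
  rw [Complex.norm_exp]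
  simp

lemma lower {α : ℝ} (hα : 0 < α) (b : ℝ) {V : ℝ} (hV : V ∈ norms α) : Phi α b ≤ V := by
  obtain ⟨μ, hμ, hrep, rfl⟩ := hV
  obtain ⟨h, hh, hμh⟩ := B595.exists_density μ hμ
  have hfin : IsFiniteMeasure μ.variation := ⟨lt_top_iff_ne_top.2 hμ⟩
  have hvar : μ.variation = μ.variation.withDensity (fun x => ‖h x‖ₑ) := by
    conv_lhs => rw [hμh]
    exact Measure.variation_withDensityᵥ hh
  have hnorm : (μ.variation Set.univ).toReal = ∫ x, ‖h x‖ ∂μ.variation := by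
    conv_lhs => rw [hvar]
    rw [withDensity_apply _ MeasurableSet.univ, Measure.restrict_univ,
      integral_norm_eq_lintegral_enorm hh.aestronglyMeasurable]
  rw [hnorm, Phi_eq]
  apply B595.lower_bound hα hh
  intro ξ hξ
  rw [← hrep ξ hξ]
  have hint : Integrable (fun x : ℝ => Complex.exp (-(Complex.I * (x:ℂ) * (ξ:ℂ))))
      (μ.variation.withDensity (fun x => ‖h x‖ₑ)) := by
    rw [← hvar]
    exact Integrable.of_bound (Continuous.aestronglyMeasurable (by fun_prop)) 1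
      (Filter.Eventually.of_forall fun x => exp_bdd x ξ)
  rw [← B595.integral_withDensityV hh hint, ← hμh]

lemma attained {α : ℝ} {ν : Measure ℝ} {h : ℝ → ℂ} (hν : IsFiniteMeasure ν) (hh : Integrable h ν)
    (hrep : ∀ ξ ∈ Set.Icc (-1:ℝ) 1, ∫ x, Complex.exp (-(Complex.I * x * ξ)) * h x ∂ν
        = (((1 - |ξ|) ^ α : ℝ) : ℂ)) : (∫ x, ‖h x‖ ∂ν) ∈ norms α := by
  have hvar : (ν.withDensityᵥ h).variation = ν.withDensity (fun x => ‖h x‖ₑ) :=
    Measure.variation_withDensityᵥ hh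
  have hfin : IsFiniteMeasure (ν.withDensity fun x ↦ ‖h x‖ₑ) := ⟨by simpa using! hh.2⟩
  refine ⟨ν.withDensityᵥ h, ?_, ?_, ?_⟩
  · rw [hvar]; exact measure_ne_top _ _
  · intro ξ hξ
    rw [← hrep ξ hξ]
    apply B595.integral_withDensityV hh
    exact Integrable.of_bound (Continuous.aestronglyMeasurable (by fun_prop)) 1
      (Filter.Eventually.of_forall fun x => exp_bdd x ξ)
  · rw [hvar, withDensity_apply _ MeasurableSet.univ, Measure.restrict_univ,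
      integral_norm_eq_lintegral_enorm hh.aestronglyMeasurable]

/-- For `0 < α ≤ 2/5` the infimum `I(α)` is attained and equals `Φ(α,b)` at a zero `b ∈ (0,π)` of
`K(α,·)`, which is the maximum of `Φ(α,·)`; for every `0 < α < 1` each `Φ(α,b)` is a lower bound
for the norms. -/
theorem result :
    (∀ α : ℝ, 0 < α → α ≤ 2/5 → ∃ b : ℝ, 0 < b ∧ b < Real.pi ∧ K α b = 0 ∧
      I α = Phi α b ∧ IsLeast (norms α) (Phi α b) ∧ ∀ β : ℝ, Phi α β ≤ Phi α b) ∧
    (∀ α : ℝ, 0 < α → α < 1 → ∀ b : ℝ, ∀ V ∈ norms α, Phi α b ≤ V) := by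
  refine ⟨fun α h0 h1 => ?_, fun α h0 _ b V hV => lower h0 b hV⟩
  obtain ⟨b, hb0, hb1, hK, ν, h, hν, hh, hrep, hV⟩ := B595.exact_density h0 h1
  have hmem : Phi α b ∈ norms α := by
    rw [Phi_eq, hV]
    exact attained hν hh hrep
  have hleast : IsLeast (norms α) (Phi α b) := ⟨hmem, fun V hV' => lower h0 b hV'⟩
  exact ⟨b, hb0, hb1, hK, hleast.csInf_eq, hleast, fun β => lower h0 β hmem⟩

end Pool.Agent.Results.MP_1b8a6f_an.ExactNorm
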